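import Pool.Agent.H5.CUBE.J_Com

/-!
# Cube project, block JJ, module JJNL
-/

set_option autoImplicit false

open MvPolynomial

namespace Pool.CUBE

open Pool.CM Pool.H93.Cube Corner J_Com

namespace J_JJNL

theorem nc_mul {R : Type} [Ring R] (x : ℤ) (y : LaurentSeries R) (s : ℤ) :
    ((x : LaurentSeries R) * y).coeff s = (x : R) * y.coeff s := by
  have h : (x : LaurentSeries R) = HahnSeries.C (x : R) := by
    rw [map_intCast]
  rw [h, HahnSeries.C_mul_eq_smul, HahnSeries.coeff_smul, smul_eq_mul]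

section
variable {n : ℕ} {E : Type} [Field E] (K : Corner n E)

theorem JJ_smul (hLIN : LINStmt) (j : ℕ) (x : F3 E) (g : MvPolynomial (Fin (n + 1)) (F3 E)) :
    K.JJ j (x • g) = ex3 E x * K.JJ j g := hLIN n E K j x g

/-- reduction to monomials with coefficient one -/
theorem red (hLIN : LINStmt) (δ : DerZ (F3 E)) (d : T3 E →+ T3 E)
    (hd : ∀ x y, d (x * y) = d x * y + x * d y) (hex : ∀ x, ex3 E (δ x) = d (ex3 E x))
    (j j' : ℕ) (c : T3 E)
    (hmon : ∀ a, K.JJ j (nab0 δ K.P (monomial a 1)) =
      d (K.JJ j (monomial a 1)) + c * K.JJ j' (monomial a 1))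
    (g : MvPolynomial (Fin (n + 1)) (F3 E)) :
    K.JJ j (nab0 δ K.P g) = d (K.JJ j g) + c * K.JJ j' g := by
  induction g using MvPolynomial.induction_on' with
  | add g1 g2 h1 h2 =>
    have e1 : K.JJ j (nab0 δ K.P (g1 + g2)) =
        K.JJ j (nab0 δ K.P g1) + K.JJ j (nab0 δ K.P g2) := by
      rw [map_add, map_add]
    have e2 : d (K.JJ j (g1 + g2)) = d (K.JJ j g1) + d (K.JJ j g2) := by
      rw [map_add, map_add]
    have e3 : c * K.JJ j' (g1 + g2) = c * K.JJ j' g1 + c * K.JJ j' g2 := by
      rw [map_add, mul_add]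
    rw [e1, e2, e3, h1, h2]
    abel
  | monomial a x =>
    have e0 : (monomial a x : MvPolynomial (Fin (n + 1)) (F3 E)) = x • monomial a 1 := by
      rw [smul_monomial, smul_eq_mul, mul_one]
    have e1 : K.JJ j (nab0 δ K.P (x • monomial a 1)) =
        ex3 E x * K.JJ j (nab0 δ K.P (monomial a 1)) + ex3 E (δ x) * K.JJ j (monomial a 1) := by
      rw [nab0_smul, map_add, JJ_smul K hLIN, JJ_smul K hLIN]
    rw [e0, e1, JJ_smul K hLIN, JJ_smul K hLIN, hmon, hex, hd]
    generalize ex3 E x = u, K.JJ j (monomial a 1) = v, K.JJ j' (monomial a 1) = w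
    generalize d u = u', d v = v'
    ring

/-- the level of a monomial -/
theorem lv_facts (a : Fin (n + 1) →₀ ℕ) (h : K.D ∣ a.degree + (n + 1)) :
    1 ≤ K.lv a ∧ K.D * K.lv a = a.degree + (n + 1) ∧ n + 1 ≤ K.D * K.lv a ∧
    (monomial a (1 : E)).IsHomogeneous (K.D * K.lv a - (n + 1)) := by
  have h1 : K.D * K.lv a = a.degree + (n + 1) := Nat.mul_div_cancel' h
  refine ⟨?_, h1, by omega, ?_⟩
  · rcases Nat.eq_zero_or_pos (K.lv a) with h0 | h0
    · rw [h0] at h1; omega
    · exact h0
  · rw [h1, Nat.add_sub_cancel]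
    exact isHomogeneous_monomial _ rfl

theorem fer_hom (D : ℕ) : (fer n D E).IsHomogeneous D := by
  rw [fer]
  apply IsHomogeneous.sum
  intro i _
  have := (isHomogeneous_X E i).pow D
  rwa [one_mul] at this

theorem sig_hom (D : ℕ) : (SigP n E ^ D).IsHomogeneous D := by
  have h1 : (SigP n E).IsHomogeneous 1 := by
    rw [SigP]
    apply IsHomogeneous.sum
    intro i _
    exact isHomogeneous_X E i
  have := h1.pow D
  rwa [one_mul] at this

/-- coefficients of `JJ_j` on a monomial -/
theorem coe_mon [CharZero E] (hCOE : COEStmt) (j : ℕ) (a : Fin (n + 1) →₀ ℕ)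
    (h : K.D ∣ a.degree + (n + 1)) (l s t : ℤ) :
    (((K.JJ j (monomial a 1)).coeff l).coeff s).coeff t =
    if 0 ≤ l ∧ 0 ≤ t then
      (if j = 0 then K.Ainf (K.lv a) (monomial a 1) l.toNat t.toNat (-s - 1) else 0) -
        Rc j (-s - 1) (K.rr (K.lv a) (monomial a 1) l.toNat t.toNat)
    else 0 := by
  obtain ⟨h1, h2, h3, h4⟩ := lv_facts K a h
  have h5 := hCOE n E K j (K.lv a) (monomial a 1) 0 0 0 h1 h4 h3 l s t
  have h6 : (C (lamF E ^ 0 * sigF E ^ 0 * tauF E ^ 0) * map (cF E) (monomial a (1 : E)) :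
      MvPolynomial (Fin (n + 1)) (F3 E)) = monomial a 1 := by
    rw [pow_zero, pow_zero, pow_zero, mul_one, mul_one, map_one, one_mul, map_monomial, map_one]
  rw [h6] at h5
  rw [h5]
  simp only [Nat.cast_zero, sub_zero]

end

end J_JJNL

open J_JJNL in
theorem jjnl_thm (hRC : RCStmt) (hLIN : LINStmt) (hLV : JJLVStmt) (hCOE : COEStmt)
    (hLAM : LAMStmt) (hEXD : EXDStmt) : JJNLStmt := by
  intro n E _ _ K j g
  have hRCn : ∀ (N : ℤ) (m : ℕ) (r : RatFunc E),
      Rc j N (-(((m : ℕ) : RatFunc E) * r)) = -((m : E) * Rc j N r) := by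
    intro N m r
    have h1 := (hRC E).2.1 j N (-(m : E)) r
    rw [map_neg, map_natCast] at h1
    rw [← neg_mul, h1, neg_mul]
  have hmon : ∀ a, K.JJ j (nab0 (dLam E) K.P (monomial a 1)) =
      (Pool.H93.Cube.nab (E := LaurentSeries (LaurentSeries E))).toAddMonoidHom
        (K.JJ j (monomial a 1)) + 0 * K.JJ j (monomial a 1) := by
    intro a
    rw [zero_mul, add_zero, nabL_mon, map_neg]
    by_cases h : K.D ∣ a.degree + (n + 1)
    · obtain ⟨h1, h2, h3, h4⟩ := lv_facts K a h
      have h5 : K.D * (K.lv a + 1) = a.degree + (n + 1) + K.D := by rw [mul_add, h2, mul_one]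
      have h6 : (fer n K.D E * monomial a 1).IsHomogeneous (K.D * (K.lv a + 1) - (n + 1)) := by
        have h7 := (fer_hom (n := n) (E := E) K.D).mul h4
        have h8 : K.D + (K.D * K.lv a - (n + 1)) = K.D * (K.lv a + 1) - (n + 1) := by omega
        rwa [h8] at h7
      have h9 : (C (lamF E) * (fer n K.D (F3 E) * monomial a 1) :
          MvPolynomial (Fin (n + 1)) (F3 E)) =
          C (lamF E ^ 1 * sigF E ^ 0 * tauF E ^ 0) *
            map (cF E) (fer n K.D E * monomial a 1) := by
        rw [pow_one, pow_zero, pow_zero, mul_one, mul_one, map_mul (map (cF E)), map_fer,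
          map_monomial, map_one (cF E)]
      rw [h9]
      ext l s t
      have h10 := hCOE n E K j (K.lv a + 1) (fer n K.D E * monomial a 1) 1 0 0 (by omega) h6
        (by omega) l s t
      have h11 : (((-(K.JJ j (C (lamF E ^ 1 * sigF E ^ 0 * tauF E ^ 0) *
            map (cF E) (fer n K.D E * monomial a 1)))).coeff l).coeff s).coeff t =
          -(((K.JJ j (C (lamF E ^ 1 * sigF E ^ 0 * tauF E ^ 0) *
            map (cF E) (fer n K.D E * monomial a 1))).coeff l).coeff s).coeff t := by
        rw [HahnSeries.coeff_neg, HahnSeries.coeff_neg, HahnSeries.coeff_neg]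
      rw [h11, h10]
      have h12 : ((((Pool.H93.Cube.nab (E := LaurentSeries (LaurentSeries E))).toAddMonoidHom
          (K.JJ j (monomial a 1))).coeff l).coeff s).coeff t =
          (l : E) * (((K.JJ j (monomial a 1)).coeff l).coeff s).coeff t := by
        have h13 : (((Pool.H93.Cube.nab (E := LaurentSeries (LaurentSeries E))).toAddMonoidHom
          (K.JJ j (monomial a 1))).coeff l) = (l : LaurentSeries (LaurentSeries E)) *
            (K.JJ j (monomial a 1)).coeff l := rfl
        rw [h13, nc_mul, nc_mul]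
      rw [h12, coe_mon K hCOE j a h]
      simp only [Nat.cast_zero, Nat.cast_one, sub_zero]
      by_cases hl : 1 ≤ l
      · by_cases ht : 0 ≤ t
        · have hc : 0 ≤ l ∧ 0 ≤ t := ⟨by omega, ht⟩
          have hc' : 1 ≤ l ∧ 0 ≤ t := ⟨hl, ht⟩
          rw [if_pos hc, if_pos hc']
          obtain ⟨m, rfl⟩ : ∃ m : ℕ, l = m + 1 := ⟨(l - 1).toNat, by omega⟩
          have h14 : ((m : ℤ) + 1 - 1).toNat = m := by omega
          have h15 : ((m : ℤ) + 1).toNat = m + 1 := by omega
          rw [h14, h15]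
          obtain ⟨h16, h17⟩ := hLAM n E K (K.lv a) m t.toNat (monomial a 1) (-s - 1) h1
          rw [h16, h17, hRCn]
          split_ifs
          · push_cast
            ring
          · push_cast
            ring
        · rw [if_neg (fun h => ht h.2), if_neg (fun h => ht h.2)]
          simp
      · rw [if_neg (fun h => hl h.1)]
        by_cases hl0 : l = 0
        · subst hl0
          simp
        · rw [if_neg (fun h => by omega)]
          simp
    · rw [hLV n E K j 1 a h, map_zero, neg_eq_zero]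
      have h9 : (C (lamF E) * (fer n K.D (F3 E) * monomial a 1) :
          MvPolynomial (Fin (n + 1)) (F3 E)) =
          ∑ i, monomial (Finsupp.single i K.D + a) (lamF E) := by
        rw [fer, Finset.sum_mul, Finset.mul_sum]
        refine Finset.sum_congr rfl fun i _ => ?_
        rw [X_pow_eq_monomial, monomial_mul, C_mul_monomial, one_mul, mul_one]
      rw [h9, map_sum]
      refine Finset.sum_eq_zero fun i _ => ?_
      apply hLV
      have : (Finsupp.single i K.D + a).degree = K.D + a.degree := by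
        rw [map_add, Finsupp.degree_single]
      rw [this, add_assoc]
      intro h7
      exact h ((Nat.dvd_add_right (dvd_refl _)).mp h7)
  have h := red K hLIN (dLam E)
    (Pool.H93.Cube.nab (E := LaurentSeries (LaurentSeries E))).toAddMonoidHom
    (fun x y => Pool.H93.Cube.nab_mul x y) (fun x => (hEXD E x).1) j j 0 hmon g
  rw [zero_mul, add_zero] at h
  exact h

end Pool.CUBE
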