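import Pool.Agent.H5.CUBE.J_JJNL

/-!
# Cube project, block JJ, module JJNS
-/

set_option autoImplicit false

open MvPolynomial

namespace Pool.CUBE

open Pool.CM Pool.H93.Cube Corner J_Com J_JJNL

theorem jjns_thm (hRC : RCStmt) (hLIN : LINStmt) (hLV : JJLVStmt) (hCOE : COEStmt)
    (hSIG : SIGStmt) (hEXD : EXDStmt) (hLEI : LEIStmt) : JJNSStmt := by
  intro n E _ _ K j g
  have hRCs : ∀ (N : ℤ) (r r' : RatFunc E), affR 1 1 one_ne_zero r' = (RatFunc.X + 1) * r →
      Rc j (N + 1) r' = ((N + 1 : ℤ) : E) * Rc j N r - ((j + 1 : ℕ) : E) * Rc (j + 1) N r := by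
    intro N r r' h
    have h1 := (hRC E).2.2.1 j N 1 r'
    rw [Int.cast_one] at h1
    rw [← h1, h, add_mul, one_mul, (hRC E).1, (hRC E).2.2.2.1]
    push_cast
    ring
  have hmon : ∀ a, K.JJ j (nab0 (dSig E) K.P (monomial a 1)) =
      nabS E (K.JJ j (monomial a 1)) + ((j + 1 : ℕ) : T3 E) * K.JJ (j + 1) (monomial a 1) := by
    intro a
    rw [nabS_mon, map_neg]
    by_cases h : K.D ∣ a.degree + (n + 1)
    · obtain ⟨h1, h2, h3, h4⟩ := lv_facts K a h
      have h5 : K.D * (K.lv a + 1) = a.degree + (n + 1) + K.D := by rw [mul_add, h2, mul_one]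
      have h6 : (SigP n E ^ K.D * monomial a 1).IsHomogeneous (K.D * (K.lv a + 1) - (n + 1)) := by
        have h7 := (sig_hom (n := n) (E := E) K.D).mul h4
        have h8 : K.D + (K.D * K.lv a - (n + 1)) = K.D * (K.lv a + 1) - (n + 1) := by omega
        rwa [h8] at h7
      have h9 : (C (sigF E) * (SigP n (F3 E) ^ K.D * monomial a 1) :
          MvPolynomial (Fin (n + 1)) (F3 E)) =
          C (lamF E ^ 0 * sigF E ^ 1 * tauF E ^ 0) *
            map (cF E) (SigP n E ^ K.D * monomial a 1) := by
        rw [pow_one, pow_zero, pow_zero, mul_one, one_mul, map_mul (map (cF E)), map_pow,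
          map_SigP, map_monomial, map_one (cF E)]
      rw [h9]
      ext l s t
      have h10 := hCOE n E K j (K.lv a + 1) (SigP n E ^ K.D * monomial a 1) 0 1 0 (by omega) h6
        (by omega) l s t
      have h11 : (((-(K.JJ j (C (lamF E ^ 0 * sigF E ^ 1 * tauF E ^ 0) *
            map (cF E) (SigP n E ^ K.D * monomial a 1)))).coeff l).coeff s).coeff t =
          -(((K.JJ j (C (lamF E ^ 0 * sigF E ^ 1 * tauF E ^ 0) *
            map (cF E) (SigP n E ^ K.D * monomial a 1))).coeff l).coeff s).coeff t := by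
        rw [HahnSeries.coeff_neg, HahnSeries.coeff_neg, HahnSeries.coeff_neg]
      rw [h11, h10]
      have h12 : ((((nabS E (K.JJ j (monomial a 1)) +
          ((j + 1 : ℕ) : T3 E) * K.JJ (j + 1) (monomial a 1)).coeff l).coeff s).coeff t) =
          (s : E) * (((K.JJ j (monomial a 1)).coeff l).coeff s).coeff t +
          ((j + 1 : ℕ) : E) * (((K.JJ (j + 1) (monomial a 1)).coeff l).coeff s).coeff t := by
        rw [HahnSeries.coeff_add, HahnSeries.coeff_add, HahnSeries.coeff_add]
        congr 1
        · have h13 : ((nabS E (K.JJ j (monomial a 1))).coeff l).coeff s =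
            (s : LaurentSeries E) * ((K.JJ j (monomial a 1)).coeff l).coeff s := rfl
          rw [h13, nc_mul]
        · have h13 : ((j + 1 : ℕ) : T3 E) = (((j + 1 : ℕ) : ℤ) : T3 E) := by push_cast; rfl
          rw [h13, nc_mul, nc_mul, nc_mul, Int.cast_natCast]
      rw [h12, coe_mon K hCOE j a h, coe_mon K hCOE (j + 1) a h]
      simp only [Nat.cast_zero, Nat.cast_one, sub_zero]
      by_cases hc : 0 ≤ l ∧ 0 ≤ t
      · rw [if_pos hc, if_pos hc, if_pos hc]
        have h14 : -(s - 1) - 1 = (-s - 1) + 1 := by ring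
        obtain ⟨h16, h17⟩ := hSIG n E K (K.lv a) l.toNat t.toNat (monomial a 1) (-s - 1) h1
        rw [h14, h16, hRCs _ _ _ h17, if_neg (Nat.succ_ne_zero j)]
        split_ifs
        · push_cast
          ring
        · push_cast
          ring
      · rw [if_neg hc, if_neg hc, if_neg hc]
        simp
    · rw [hLV n E K j 1 a h, hLV n E K (j + 1) 1 a h, map_zero, mul_zero, add_zero, neg_eq_zero]
      have h8 : ∀ (N : ℕ) (Q : MvPolynomial (Fin (n + 1)) E), Q.IsHomogeneous N → K.D ∣ N →
          K.JJ j (C (sigF E) * (map (cF E) Q * monomial a 1)) = 0 := by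
        intro N Q hQ hN
        rw [Q.as_sum, map_sum, Finset.sum_mul, Finset.mul_sum, map_sum]
        refine Finset.sum_eq_zero fun b hb => ?_
        rw [map_monomial, monomial_mul, C_mul_monomial]
        apply hLV
        have h9 : b.degree = N := by
          rw [Finsupp.degree_eq_weight_one]
          exact hQ (mem_support_iff.mp hb)
        have : (b + a).degree = N + a.degree := by
          rw [map_add, h9]
        rw [this, add_assoc]
        intro h7
        exact h ((Nat.dvd_add_right hN).mp h7)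
      have h9 := h8 K.D (SigP n E ^ K.D) (sig_hom K.D) (dvd_refl _)
      rwa [map_pow, map_SigP] at h9
  exact red K hLIN (dSig E) (nabS E) (fun x y => hLEI E x y) (fun x => (hEXD E x).2) j (j + 1)
    ((j + 1 : ℕ) : T3 E) hmon g

end Pool.CUBE
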