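import Pool.Agent.H38.CUBE.JJStmts

/-!
# Cube project, block JJ: common lemmas for JJNL and JJNS
-/

set_option autoImplicit false

open MvPolynomial

namespace Pool.CUBE

open Pool.CM Pool.H93.Cube Corner

namespace J_Com

section
variable {σ A : Type} [CommRing A]

theorem cD_C (δ : Derivation ℤ A A) (x : A) : cD δ (C x : MvPolynomial σ A) = C (δ x) :=
  cD_monomial δ 0 x

theorem cD_mon1 (δ : Derivation ℤ A A) (a : σ →₀ ℕ) : cD δ (monomial a (1 : A)) = 0 := by
  rw [cD_monomial, Derivation.map_one_eq_zero, map_zero]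

theorem cD_X (δ : Derivation ℤ A A) (i : σ) : cD δ (X i : MvPolynomial σ A) = 0 :=
  cD_mon1 δ _

theorem cD_mul (δ : Derivation ℤ A A) (f g : MvPolynomial σ A) :
    cD δ (f * g) = f * cD δ g + g * cD δ f := by
  rw [Derivation.leibniz, smul_eq_mul, smul_eq_mul]

theorem cD_pow0 (δ : Derivation ℤ A A) (f : MvPolynomial σ A) (h : cD δ f = 0) (k : ℕ) :
    cD δ (f ^ k) = 0 := by
  rw [Derivation.leibniz_pow, h]
  simp

theorem cD_sum0 {ι : Type} (s : Finset ι) (δ : Derivation ℤ A A) (f : ι → MvPolynomial σ A)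
    (h : ∀ i ∈ s, cD δ (f i) = 0) : cD δ (∑ i ∈ s, f i) = 0 := by
  rw [map_sum]
  exact Finset.sum_eq_zero h

theorem cD_sub (δ : Derivation ℤ A A) (f g : MvPolynomial σ A) :
    cD δ (f - g) = cD δ f - cD δ g := map_sub _ _ _

theorem cD_add (δ : Derivation ℤ A A) (f g : MvPolynomial σ A) :
    cD δ (f + g) = cD δ f + cD δ g := map_add _ _ _

theorem cD_map {B : Type} [CommRing B] (φ : A →+* B) (δ : Derivation ℤ A A)
    (δ' : Derivation ℤ B B) (h : ∀ x, δ' (φ x) = φ (δ x)) (g : MvPolynomial σ A) :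
    cD δ' (map φ g) = map φ (cD δ g) := by
  induction g using MvPolynomial.induction_on' with
  | add g1 g2 h1 h2 => rw [map_add, map_add, h1, h2, map_add, map_add]
  | monomial a r => rw [map_monomial, cD_monomial, cD_monomial, map_monomial, h]

theorem cD_map0 {B : Type} [CommRing B] (φ : A →+* B)
    (δ' : Derivation ℤ B B) (h : ∀ x, δ' (φ x) = 0) (g : MvPolynomial σ A) :
    cD δ' (map φ g) = 0 := by
  induction g using MvPolynomial.induction_on' with
  | add g1 g2 h1 h2 => rw [map_add, map_add, h1, h2, add_zero]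
  | monomial a r => rw [map_monomial, cD_monomial, h, map_zero]

end

section
variable {L : Type} [Field L]

theorem nc_C (r : L) : nabP L (Polynomial.C r) = 0 := by
  ext n
  rw [nabP_coeff, Polynomial.coeff_zero, Polynomial.coeff_C]
  split_ifs with h
  · subst h; simp
  · simp

theorem nc_X : nabP L Polynomial.X = Polynomial.X := by
  ext n
  rw [nabP_coeff, Polynomial.coeff_X]
  split_ifs with h
  · subst h; simp
  · simp

theorem fdn_C (r : L) : (fd (nabP L) : DerZ (RatFunc L)) (RatFunc.C r) = 0 := by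
  rw [← RatFunc.algebraMap_C]
  exact (fd_algebraMap (nabP L) (Polynomial.C r)).trans
    ((congrArg _ (nc_C r)).trans (map_zero _))

theorem fdn_X : (fd (nabP L) : DerZ (RatFunc L)) RatFunc.X = RatFunc.X := by
  rw [← RatFunc.algebraMap_X]
  exact (fd_algebraMap (nabP L) Polynomial.X).trans (congrArg _ nc_X)

theorem dc_C (d : DerZ L) (r : L) : dCoeff d (Polynomial.C r) = Polynomial.C (d r) := by
  ext n
  rw [dCoeff_coeff, Polynomial.coeff_C, Polynomial.coeff_C]
  split_ifs with h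
  · rfl
  · rw [map_zero]

theorem dc_X (d : DerZ L) : dCoeff d Polynomial.X = 0 := by
  ext n
  rw [dCoeff_coeff, Polynomial.coeff_X, Polynomial.coeff_zero]
  split_ifs with h
  · rw [Derivation.map_one_eq_zero]
  · rw [map_zero]

theorem fdc_C (d : DerZ L) (r : L) :
    (fd (dCoeff d) : DerZ (RatFunc L)) (RatFunc.C r) = RatFunc.C (d r) := by
  rw [← RatFunc.algebraMap_C, ← RatFunc.algebraMap_C]
  exact (fd_algebraMap (dCoeff d) (Polynomial.C r)).trans (congrArg _ (dc_C d r))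

theorem fdc_X (d : DerZ L) : (fd (dCoeff d) : DerZ (RatFunc L)) RatFunc.X = 0 := by
  rw [← RatFunc.algebraMap_X]
  exact (fd_algebraMap (dCoeff d) Polynomial.X).trans
    ((congrArg _ (dc_X d)).trans (map_zero _))

end

section
variable {n : ℕ} {E : Type} [Field E] (K : Corner n E)

theorem map_fer (n D : ℕ) {A B : Type} [CommRing A] [CommRing B] (φ : A →+* B) :
    map φ (fer n D A) = fer n D B := by
  rw [fer, fer, map_sum]
  exact Finset.sum_congr rfl fun i _ => by rw [map_pow, map_X]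

theorem map_SigP (n : ℕ) {A B : Type} [CommRing A] [CommRing B] (φ : A →+* B) :
    map φ (SigP n A) = SigP n B := by
  rw [SigP, SigP, map_sum]
  exact Finset.sum_congr rfl fun i _ => by rw [map_X]

theorem cD_fer (n D : ℕ) {A : Type} [CommRing A] (δ : Derivation ℤ A A) :
    cD δ (fer n D A) = 0 :=
  cD_sum0 _ _ _ fun i _ => cD_pow0 _ _ (cD_X δ i) _

theorem cD_SigP (n D : ℕ) {A : Type} [CommRing A] (δ : Derivation ℤ A A) :
    cD δ (SigP n A ^ D) = 0 :=
  cD_pow0 _ _ (cD_sum0 _ _ _ fun i _ => cD_X δ i) _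

theorem cDL_P : cD (dLam E) K.P = C (lamF E) * fer n K.D (F3 E) := by
  have h : K.P = map (RatFunc.C (K := RatFunc (RatFunc E))) K.P0 +
    C RatFunc.X * fer n K.D (F3 E) := rfl
  have h2 : dLam E (RatFunc.X : F3 E) = RatFunc.X := fdn_X
  have h3 : cD (dLam E) (map (RatFunc.C (K := RatFunc (RatFunc E))) K.P0) = 0 :=
    cD_map0 _ _ (fun x => fdn_C x) _
  rw [h, cD_add, h3, zero_add, cD_mul, cD_fer, cD_C, h2, mul_zero, zero_add, mul_comm]
  rfl

theorem cD_gen (n N : ℕ) {A B ι : Type} [CommRing A] [CommRing B] (δ : Derivation ℤ A A) (x : A)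
    (hx : δ x = x) (s : Finset ι) (u : ι → A) (hu : ∀ k, δ (u k) = 0) (φ : B →+* A)
    (hφ : ∀ y, δ (φ y) = 0) (G : ι → MvPolynomial (Fin (n + 1)) B) :
    cD δ (C x * SigP n A ^ N - ∑ k ∈ s, C (u k) * map φ (G k)) = C x * SigP n A ^ N := by
  rw [cD_sub, cD_mul, cD_SigP, cD_C, hx, mul_zero, zero_add]
  rw [cD_sum0, sub_zero, mul_comm]
  intro k _
  rw [cD_mul, cD_map0 φ δ hφ, cD_C, hu, map_zero, mul_zero, mul_zero, add_zero]

theorem cDS_P0 : cD (fd (nabP (RatFunc E)) : DerZ (RatFunc (RatFunc E))) K.P0 =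
      C (RatFunc.X : RatFunc (RatFunc E)) * SigP n _ ^ K.D :=
  cD_gen n K.D (fd (nabP (RatFunc E)) : DerZ (RatFunc (RatFunc E))) RatFunc.X fdn_X
    (Finset.range ((1 + K.w).natDegree + 1)) (fun k => RatFunc.C (RatFunc.X : RatFunc E) ^ k)
    (fun k => by rw [← map_pow]; exact fdn_C _) (cF2 E) (fun _ => fdn_C _) K.G

theorem cDS_P : cD (dSig E) K.P = C (sigF E) * SigP n (F3 E) ^ K.D := by
  have h : K.P = map (RatFunc.C (K := RatFunc (RatFunc E))) K.P0 +
    C RatFunc.X * fer n K.D (F3 E) := rfl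
  have h2 : dSig E (RatFunc.X : F3 E) = 0 := fdc_X _
  have h4 : cD (dSig E) (map (RatFunc.C (K := RatFunc (RatFunc E))) K.P0) =
      map (RatFunc.C (K := RatFunc (RatFunc E)))
        (cD (fd (nabP (RatFunc E)) : DerZ (RatFunc (RatFunc E))) K.P0) :=
    cD_map _ _ _ (fun x => fdc_C _ x) _
  rw [h, cD_add, cD_mul, cD_fer, cD_C, h2, map_zero, mul_zero, mul_zero, add_zero,
    add_zero, h4, cDS_P0, map_mul, map_pow, map_SigP, map_C]
  rfl

theorem nabL_mon (a : Fin (n + 1) →₀ ℕ) : nab0 (dLam E) K.P (monomial a 1) =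
    -(C (lamF E) * (fer n K.D (F3 E) * monomial a 1)) := by
  rw [nab0_apply, cD_mon1, cDL_P]
  ring

theorem nabS_mon (a : Fin (n + 1) →₀ ℕ) : nab0 (dSig E) K.P (monomial a 1) =
    -(C (sigF E) * (SigP n (F3 E) ^ K.D * monomial a 1)) := by
  rw [nab0_apply, cD_mon1, cDS_P]
  ring

end

end J_Com

end Pool.CUBE
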