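import Pool.Agent.H38.CUBE.JJStmts

/-!
# Cube project, block JJ, module LEI
-/

set_option autoImplicit false

namespace Pool.CUBE

open Pool.CM Pool.H93.Cube

namespace J_LEI

theorem cmap_leib {K : Type} [Field K] (δ : K →+ K)
    (h : ∀ a b : K, δ (a * b) = δ a * b + a * δ b) (f g : LaurentSeries K) :
    cmap δ (f * g) = cmap δ f * g + f * cmap δ g := by
  obtain ⟨a, ha⟩ := exists_bound f
  obtain ⟨b, hb⟩ := exists_bound g
  have ha' : ∀ k < a, (cmap δ f).coeff k = 0 := fun k hk => by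
    rw [cmap_coeff, ha k hk, map_zero]
  have hb' : ∀ k < b, (cmap δ g).coeff k = 0 := fun k hk => by
    rw [cmap_coeff, hb k hk, map_zero]
  ext k
  rw [cmap_coeff, HahnSeries.coeff_add, coeff_mul_Icc ha hb, coeff_mul_Icc ha' hb,
    coeff_mul_Icc ha hb', map_sum, ← Finset.sum_add_distrib]
  refine Finset.sum_congr rfl fun j _ => ?_
  rw [cmap_coeff, cmap_coeff, h]

end J_LEI

theorem lei_thm : Corner.LEIStmt := by
  intro E _ x y
  exact J_LEI.cmap_leib _ (fun a b => Pool.H93.Cube.nab_mul a b) x y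

end Pool.CUBE
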